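import Mathlib

/-! Symmetry of the second order data of a potential at a point of differentiability. -/

namespace Pool.Agent.MP_3ee8cb_gt.CZP

open Set Filter Topology

/-- Increments that are at most `η h + C h ^ 2`. -/
theorem tele {g : ℝ → ℝ} {η C : ℝ}
    (h : ∀ s ∈ Icc (0:ℝ) 1, ∀ t ∈ Icc (0:ℝ) 1, s ≤ t → |g t - g s| ≤ η * (t - s) + C * (t - s) ^ 2) :
    |g 1 - g 0| ≤ η := by
  have key : ∀ N : ℕ, |g 1 - g 0| ≤ η + C * (1 / ((N:ℝ) + 1)) := by
    intro N
    have hN : (0:ℝ) < N + 1 := by positivity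
    have ind : ∀ i : ℕ, i ≤ N + 1 →
        |g (i / (N + 1)) - g 0| ≤ i * (η * (1 / (N + 1)) + C * (1 / (N + 1)) ^ 2) := by
      intro i
      induction i with
      | zero => intro _; simp
      | succ i ih =>
        intro hi
        have hi' : ((i:ℝ) + 1) ≤ N + 1 := by exact_mod_cast hi
        have i0 : (0:ℝ) ≤ i := Nat.cast_nonneg i
        have a1 := h (i / (N + 1)) ⟨by positivity, (div_le_one hN).2 (by linarith)⟩
          ((i + 1) / (N + 1)) ⟨by positivity, (div_le_one hN).2 hi'⟩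
          (div_le_div_of_nonneg_right (by linarith) hN.le)
        have e : ((i:ℝ) + 1) / (N + 1) - i / (N + 1) = 1 / (N + 1) := by ring
        rw [e] at a1
        have a2 := ih (by omega)
        have a3 := abs_sub_le (g ((i + 1) / (N + 1))) (g (i / (N + 1))) (g 0)
        push_cast
        linarith
    have := ind (N + 1) le_rfl
    push_cast at this
    rw [div_self hN.ne'] at this
    refine this.trans (le_of_eq ?_)
    field_simp
  have lim : Tendsto (fun N : ℕ => η + C * (1 / ((N:ℝ) + 1))) atTop (𝓝 (η + C * 0)) :=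
    (tendsto_one_div_add_atTop_nhds_zero_nat.const_mul C).const_add η
  simpa using ge_of_tendsto' lim key

variable {E F G : Type*} [NormedAddCommGroup E] [NormedSpace ℝ E] [NormedAddCommGroup F]
  [NormedSpace ℝ F] [NormedAddCommGroup G] [NormedSpace ℝ G]

/-- One edge. -/
theorem edge (B : F →L[ℝ] G →L[ℝ] ℝ) {r : E → F} {q : E → G} {k : E → ℝ} {R : E →L[ℝ] F}
    {Q : E →L[ℝ] G} {x : E} {C L δ ρ : ℝ} (hδ : 0 ≤ δ)
    (h : ∀ a b : E, ‖a‖ ≤ ρ → ‖b‖ ≤ ρ →
      |k (x + b) - k (x + a) - B (r (x + a)) (q (x + b) - q (x + a))| ≤ C * ‖b - a‖ ^ 2 ∧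
        ‖q (x + b) - q (x + a)‖ ≤ L * ‖b - a‖)
    (hr : ∀ a : E, ‖a‖ ≤ ρ → ‖r (x + a) - r x - R a‖ ≤ δ)
    (hq : ∀ a : E, ‖a‖ ≤ ρ → ‖q (x + a) - q x - Q a‖ ≤ δ) {a v : E} (ha : ‖a‖ ≤ ρ)
    (hb : ‖a + v‖ ≤ ρ) :
    |k (x + (a + v)) - B (r x + R (a + v)) (q (x + (a + v))) -
      (k (x + a) - B (r x + R a) (q (x + a))) + B (R v) (q x + Q a + (1 / 2 : ℝ) • Q v)| ≤
        ‖B‖ * δ * ‖v‖ * (L + ‖R‖) := by
  have hγ : ∀ s ∈ Icc (0:ℝ) 1, ‖a + s • v‖ ≤ ρ := fun s hs => by
    have e : a + s • v = (1 - s) • a + s • (a + v) := by module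
    rw [e]
    refine (norm_add_le _ _).trans ?_
    rw [norm_smul, norm_smul, Real.norm_of_nonneg hs.1, Real.norm_of_nonneg (sub_nonneg.2 hs.2)]
    nlinarith [mul_le_mul_of_nonneg_left ha (sub_nonneg.2 hs.2), mul_le_mul_of_nonneg_left hb hs.1]
  have := tele (g := fun s => k (x + (a + s • v)) - B (r x + R (a + s • v)) (q (x + (a + s • v))) +
    B (R v) (s • q x + s • Q a + (s ^ 2 / 2) • Q v)) (η := ‖B‖ * δ * ‖v‖ * (L + ‖R‖))
    (C := C * ‖v‖ ^ 2 + |B (R v) (Q v)| / 2) (by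
      intro s hs t ht hst
      obtain ⟨h1, h2⟩ := h _ _ (hγ s hs) (hγ t ht)
      have ev : a + t • v - (a + s • v) = (t - s) • v := by module
      have hts : 0 ≤ t - s := sub_nonneg.2 hst
      rw [ev, norm_smul, Real.norm_of_nonneg hts] at h1 h2
      have h3 := hr _ (hγ s hs)
      have h4 := hq _ (hγ t ht)
      set qt := q (x + (a + t • v))
      set qs := q (x + (a + s • v))
      set rs := r (x + (a + s • v))
      have b1 : |B (rs - r x - R (a + s • v)) (qt - qs)| ≤ ‖B‖ * δ * (L * ((t - s) * ‖v‖)) := by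
        refine (B.le_opNorm₂ _ _).trans ?_
        gcongr
      have b2 : |B (R v) (qt - q x - Q (a + t • v))| ≤ ‖B‖ * (‖R‖ * ‖v‖) * δ := by
        refine (B.le_opNorm₂ _ _).trans ?_
        gcongr
        exact R.le_opNorm v
      have e : k (x + (a + t • v)) - B (r x + R (a + t • v)) qt +
          B (R v) (t • q x + t • Q a + (t ^ 2 / 2) • Q v) -
          (k (x + (a + s • v)) - B (r x + R (a + s • v)) qs +
            B (R v) (s • q x + s • Q a + (s ^ 2 / 2) • Q v)) =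
          (k (x + (a + t • v)) - k (x + (a + s • v)) - B rs (qt - qs)) +
            B (rs - r x - R (a + s • v)) (qt - qs) -
            (t - s) * B (R v) (qt - q x - Q (a + t • v)) - (t - s) ^ 2 / 2 * B (R v) (Q v) := by
        simp only [map_add, map_sub, map_smul, add_apply, sub_apply, smul_apply, smul_eq_mul]
        ring
      rw [e]
      have b3 : |(t - s) * B (R v) (qt - q x - Q (a + t • v))| ≤
          (t - s) * (‖B‖ * (‖R‖ * ‖v‖) * δ) := by
        rw [abs_mul, abs_of_nonneg hts]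
        exact mul_le_mul_of_nonneg_left b2 hts
      have b4 : |(t - s) ^ 2 / 2 * B (R v) (Q v)| = (t - s) ^ 2 / 2 * |B (R v) (Q v)| := by
        rw [abs_mul, abs_of_nonneg (by positivity)]
      have := abs_le.1 h1
      have := abs_le.1 b1
      have := abs_le.1 b3
      have := abs_le.1 b4.le
      rw [abs_le]
      constructor <;> nlinarith)
  refine le_of_eq_of_le (congrArg abs ?_) this
  simp only [one_smul, zero_smul, add_zero, one_pow, map_zero, ne_eq, OfNat.ofNat_ne_zero,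
    not_false_eq_true, zero_pow, zero_div]
  ring

/-- If `k` has the increments `B (r a) (q b - q a)` up to second order, `q` is Lipschitz and
`r`, `q` are differentiable at `x`, then `B (Dr ·) (Dq ·)` is symmetric. -/
theorem peano (B : F →L[ℝ] G →L[ℝ] ℝ) {r : E → F} {q : E → G} {k : E → ℝ} {R : E →L[ℝ] F}
    {Q : E →L[ℝ] G} {x : E} {C L : ℝ} (hr : HasFDerivAt r R x) (hq : HasFDerivAt q Q x)
    (h : ∀ᶠ p : E × E in 𝓝 (x, x),
      |k p.2 - k p.1 - B (r p.1) (q p.2 - q p.1)| ≤ C * ‖p.2 - p.1‖ ^ 2 ∧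
        ‖q p.2 - q p.1‖ ≤ L * ‖p.2 - p.1‖) (e e' : E) :
    B (R e) (Q e') = B (R e') (Q e) := by
  set m := ‖e‖ + ‖e'‖ + 1 with hm
  have m0 : 0 < m := by positivity
  set K := 6 * (‖B‖ * m * m * (|L| + ‖R‖)) with hK
  have key : ∀ δ : ℝ, 0 < δ → |B (R e') (Q e) - B (R e) (Q e')| ≤ K * δ := by
    intro δ hδ
    have t : Tendsto (fun p : E × E => (x + p.1, x + p.2)) (𝓝 (0, 0)) (𝓝 (x, x)) := by
      have : Continuous fun p : E × E => (x + p.1, x + p.2) := by fun_prop
      simpa using this.tendsto (0, 0)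
    have r1 := (hasFDerivAt_iff_isLittleO_nhds_zero.1 hr).def hδ
    have q1 := (hasFDerivAt_iff_isLittleO_nhds_zero.1 hq).def hδ
    obtain ⟨ρ1, p1, H1⟩ := Metric.eventually_nhds_iff.1 (t.eventually h)
    obtain ⟨ρ2, p2, H2⟩ := Metric.eventually_nhds_iff.1 (r1.and q1)
    obtain ⟨ε, e0, e1, e2⟩ : ∃ ε : ℝ, 0 < ε ∧ ε * m < ρ1 ∧ ε * m < ρ2 := by
      refine ⟨min ρ1 ρ2 / (2 * m), by positivity, ?_, ?_⟩
      · have : min ρ1 ρ2 / (2 * m) * m = min ρ1 ρ2 / 2 := by field_simp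
        rw [this]; linarith [min_le_left ρ1 ρ2]
      · have : min ρ1 ρ2 / (2 * m) * m = min ρ1 ρ2 / 2 := by field_simp
        rw [this]; linarith [min_le_right ρ1 ρ2]
    have E1 := fun (a v : E) => edge B (r := r) (q := q) (k := k) (R := R) (Q := Q) (x := x)
      (C := C) (L := |L|) (δ := δ * (ε * m)) (ρ := ε * m) (by positivity)
      (fun a b ha hb => by
        have := @H1 (a, b) (by
          rw [Prod.dist_eq]
          simp only [dist_zero_right, max_lt_iff]
          exact ⟨ha.trans_lt e1, hb.trans_lt e1⟩)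
        simp only [add_sub_add_left_eq_sub] at this
        exact ⟨this.1, this.2.trans (mul_le_mul_of_nonneg_right (le_abs_self L) (norm_nonneg _))⟩)
      (fun a ha => ((@H2 a (by simpa using ha.trans_lt e2)).1).trans
        (mul_le_mul_of_nonneg_left ha hδ.le))
      (fun a ha => ((@H2 a (by simpa using ha.trans_lt e2)).2).trans
        (mul_le_mul_of_nonneg_left ha hδ.le)) (a := a) (v := v)
    have n : ∀ w : E, ‖w‖ ≤ m → ‖ε • w‖ ≤ ε * m := fun w hw => by
      rw [norm_smul, Real.norm_of_nonneg e0.le]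
      exact mul_le_mul_of_nonneg_left hw e0.le
    have n1 := n e (by linarith [norm_nonneg e'])
    have n2 := n e' (by linarith [norm_nonneg e])
    have n3 := n (e' - e) (by linarith [norm_sub_le e' e])
    have n0 : ‖(0 : E)‖ ≤ ε * m := by rw [norm_zero]; positivity
    have s1 : (0 : E) + ε • e = ε • e := zero_add _
    have s2 : ε • e + ε • (e' - e) = ε • e' := by module
    have s3 : ε • e' + -(ε • e') = 0 := add_neg_cancel _
    have a1 := E1 0 (ε • e) n0 (by rwa [s1])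
    have a2 := E1 (ε • e) (ε • (e' - e)) n1 (by rwa [s2])
    have a3 := E1 (ε • e') (-(ε • e')) n2 (by rwa [s3])
    rw [s1] at a1
    rw [s2] at a2
    rw [s3, norm_neg] at a3
    have bd : ∀ w : E, ‖w‖ ≤ ε * m → ‖B‖ * (δ * (ε * m)) * ‖w‖ * (|L| + ‖R‖) ≤
        ε ^ 2 * (K * δ / 6) := fun w hw => by
      calc _ ≤ ‖B‖ * (δ * (ε * m)) * (ε * m) * (|L| + ‖R‖) := by gcongr
        _ = _ := by rw [hK]; ring
    have c1 := abs_le.1 (a1.trans (bd _ n1))
    have c2 := abs_le.1 (a2.trans (bd _ n3))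
    have c3 := abs_le.1 (a3.trans (bd _ n2))
    have sm : B (R (ε • e)) (q x + Q 0 + (1 / 2 : ℝ) • Q (ε • e)) +
        B (R (ε • (e' - e))) (q x + Q (ε • e) + (1 / 2 : ℝ) • Q (ε • (e' - e))) +
        B (R (-(ε • e'))) (q x + Q (ε • e') + (1 / 2 : ℝ) • Q (-(ε • e'))) =
          ε ^ 2 * ((B (R e') (Q e) - B (R e) (Q e')) / 2) := by
      simp only [map_add, map_sub, map_smul, map_neg, map_zero, sub_apply, smul_apply,
        neg_apply, smul_eq_mul]
      ring
    have e2' : 0 < ε ^ 2 := by positivity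
    rw [abs_le]
    constructor
    · have : ε ^ 2 * (-(K * δ) / 2) ≤ ε ^ 2 * ((B (R e') (Q e) - B (R e) (Q e')) / 2) := by
        linarith [c1.1, c2.1, c3.1]
      linarith [le_of_mul_le_mul_left this e2']
    · have : ε ^ 2 * ((B (R e') (Q e) - B (R e) (Q e')) / 2) ≤ ε ^ 2 * (K * δ / 2) := by
        linarith [c1.2, c2.2, c3.2]
      linarith [le_of_mul_le_mul_left this e2']
  have lim : Tendsto (fun δ : ℝ => K * δ) (𝓝[>] 0) (𝓝 (K * 0)) :=
    ((continuous_const.mul continuous_id).tendsto 0).mono_left nhdsWithin_le_nhds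
  have := ge_of_tendsto lim (eventually_nhdsWithin_of_forall key)
  rw [mul_zero, abs_nonpos_iff] at this
  linarith

open scoped RealInnerProductSpace in
/-- The same for an inner product. -/
theorem peano_inner {W : Type*} [NormedAddCommGroup W] [InnerProductSpace ℝ W] {r q : E → W}
    {k : E → ℝ} {R Q : E →L[ℝ] W} {x : E} {C L : ℝ} (hr : HasFDerivAt r R x)
    (hq : HasFDerivAt q Q x)
    (h : ∀ᶠ p : E × E in 𝓝 (x, x),
      |k p.2 - k p.1 - ⟪r p.1, q p.2 - q p.1⟫| ≤ C * ‖p.2 - p.1‖ ^ 2 ∧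
        ‖q p.2 - q p.1‖ ≤ L * ‖p.2 - p.1‖) (e e' : E) :
    ⟪R e, Q e'⟫ = ⟪R e', Q e⟫ :=
  peano (innerSL ℝ) hr hq h e e'

end Pool.Agent.MP_3ee8cb_gt.CZP
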