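import Pool.Agent.MP_3ee8cb_gt.CZP.NL
import Pool.Agent.MP_3ee8cb_gt.D3LM.Lip
import Pool.Agent.MP_3ee8cb_gt.CZI.Dom

/-! Null Lagrangians in an atlas of Lipschitz charts. -/

namespace Pool.Agent.MP_3ee8cb_gt.CZP

open Set Filter Topology MeasureTheory D3 D3NP Metric Function
open D3GB (trip bv)
open scoped NNReal Manifold

section
variable {X Y Z : Type*} [PseudoEMetricSpace X] [PseudoEMetricSpace Y] [PseudoEMetricSpace Z]
  {s : Set X}

theorem ll_comp {g : Y → Z} {f : X → Y} {t : Set Y} (hg : LocallyLipschitzOn t g)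
    (hf : LocallyLipschitzOn s f) (m : MapsTo f s t) : LocallyLipschitzOn s (g ∘ f) := by
  intro x hx
  obtain ⟨K, u, hu, l⟩ := hf hx
  obtain ⟨L, v, hv, l'⟩ := hg (m hx)
  exact ⟨L * K, u ∩ f ⁻¹' v,
    inter_mem hu ((hf.continuousOn x hx).tendsto_nhdsWithin m hv),
    l'.comp (l.mono inter_subset_left) fun _ k => k.2⟩

theorem ll_prod {f : X → Y} {g : X → Z} (hf : LocallyLipschitzOn s f)
    (hg : LocallyLipschitzOn s g) : LocallyLipschitzOn s fun x => (f x, g x) := by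
  intro x hx
  obtain ⟨K, u, hu, l⟩ := hf hx
  obtain ⟨L, v, hv, l'⟩ := hg hx
  exact ⟨max K L, u ∩ v, inter_mem hu hv,
    (l.mono inter_subset_left).prodMk (l'.mono inter_subset_right)⟩

theorem ll_c1 {E F : Type*} [NormedAddCommGroup E] [NormedSpace ℝ E] [NormedAddCommGroup F]
    [NormedSpace ℝ F] {g : E → F} {f : X → E} (hg : ContDiff ℝ 1 g)
    (hf : LocallyLipschitzOn s f) : LocallyLipschitzOn s fun x => g (f x) :=
  ll_comp (t := univ) hg.locallyLipschitz.locallyLipschitzOn hf (mapsTo_univ _ _)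

theorem ll_smul {E : Type*} [NormedAddCommGroup E] [NormedSpace ℝ E] {u : X → ℝ} {f : X → E}
    (hu : LocallyLipschitzOn s u) (hf : LocallyLipschitzOn s f) :
    LocallyLipschitzOn s fun x => u x • f x :=
  ll_c1 (g := fun p : ℝ × E => p.1 • p.2) (contDiff_fst.smul contDiff_snd) (ll_prod hu hf)

end

/-- An oriented atlas of Lipschitz charts on one domain. -/
structure At (Om : Set V) (K : V → V) : Prop where
  op : IsOpen Om
  lip : LocallyLipschitzOn Om K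
  inj : ∀ w ∈ Om, ∃ U ∈ 𝓝 w, InjOn K U
  tr : ∀ w ∈ Om, ∀ w' ∈ Om, K w = K w' → ∃ (τ : V → V) (L : ℝ≥0), ∃ U ∈ 𝓝 w,
    LipschitzOnWith L τ U ∧ τ w = w' ∧ (∀ x ∈ U, K (τ x) = K x) ∧
      ∀ᵐ x : V, x ∈ U → 0 ≤ (fderiv ℝ τ x).det

/-- A density that does not depend on the chart. -/
def Den (Om : Set V) (K : V → V) (D : V → ℝ) : Prop := ∃ Z : Set V, volume Z = 0 ∧
  ∀ (τ : V → V) (w : V), w ∈ Om → τ w ∈ Om → τ w ∉ Z → DifferentiableAt ℝ τ w →
    (∀ᶠ x in 𝓝 w, K (τ x) = K x) → D w = (fderiv ℝ τ w).det * D (τ w)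

theorem dv_comp {P Q τ : V → V} {w : V} (hP : DifferentiableAt ℝ P (τ w))
    (hQ : DifferentiableAt ℝ Q (τ w)) (hτ : DifferentiableAt ℝ τ w) :
    dv (P ∘ τ) (Q ∘ τ) w = (fderiv ℝ τ w).det * dv P Q (τ w) := by
  rw [D3GB.rDET3]
  simp only [dv, fderiv_comp w hP hτ, fderiv_comp w hQ hτ, ContinuousLinearMap.comp_apply]
  generalize fderiv ℝ τ w (bv 0) = t0
  generalize fderiv ℝ τ w (bv 1) = t1
  generalize fderiv ℝ τ w (bv 2) = t2
  rw [XDV.lin (fderiv ℝ P (τ w)) t0, XDV.lin (fderiv ℝ P (τ w)) t1, XDV.lin (fderiv ℝ P (τ w)) t2,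
    XDV.lin (fderiv ℝ Q (τ w)) t0, XDV.lin (fderiv ℝ Q (τ w)) t1, XDV.lin (fderiv ℝ Q (τ w)) t2]
  simp only [trip, PiLp.add_apply, PiLp.smul_apply, smul_eq_mul]
  ring

variable {Om : Set V} {K : V → V}

theorem den_dv {C f : V → V} (hO : IsOpen Om) (lC : LocallyLipschitzOn Om (C ∘ K))
    (lf : LocallyLipschitzOn Om (f ∘ K)) : Den Om K (dv (C ∘ K) (f ∘ K)) := by
  refine ⟨{a | ¬(a ∈ Om → DifferentiableAt ℝ (C ∘ K) a ∧ DifferentiableAt ℝ (f ∘ K) a)}, ?_,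
    fun τ w _ h2 h3 h4 h5 => ?_⟩
  · refine ae_iff.1 ?_
    filter_upwards [D3LM.ae_diff volume hO lC, D3LM.ae_diff volume hO lf] with a a1 a2 h
    exact ⟨a1 h, a2 h⟩
  · obtain ⟨a1, a2⟩ := not_not.1 h3 h2
    rw [← dv_comp a1 a2 h4]
    have e1 : (C ∘ K) ∘ τ =ᶠ[𝓝 w] C ∘ K := h5.mono fun x hx => congrArg C hx
    have e2 : (f ∘ K) ∘ τ =ᶠ[𝓝 w] f ∘ K := h5.mono fun x hx => congrArg f hx
    simp only [dv, e1.fderiv_eq, e2.fderiv_eq]

theorem den_jc {C : V → V} (hO : IsOpen Om) (lC : LocallyLipschitzOn Om (C ∘ K)) :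
    Den Om K (jc (C ∘ K)) := by
  refine ⟨{a | ¬(a ∈ Om → DifferentiableAt ℝ (C ∘ K) a)}, ae_iff.1 (D3LM.ae_diff volume hO lC),
    fun τ w _ h2 h3 h4 h5 => ?_⟩
  have e1 : (C ∘ K) ∘ τ =ᶠ[𝓝 w] C ∘ K := h5.mono fun x hx => congrArg C hx
  simp only [jc]
  rw [← e1.fderiv_eq, fderiv_comp w (not_not.1 h3 h2) h4, mul_comm]
  exact LinearMap.det_comp _ _

/-- The transition map to a chart. -/
theorem At.loc (h : At Om K) {A : Set V} (hA : IsOpen A) (AO : A ⊆ Om) (iA : InjOn K A) {w : V}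
    (hw : w ∈ Om) (hk : K w ∈ K '' A) : ∃ (τ : V → V) (L : ℝ≥0), ∃ U ∈ 𝓝 w,
      LipschitzOnWith L τ U ∧ EqOn (invFunOn K A ∘ K) τ U ∧
        ∀ᵐ x : V, x ∈ U → 0 ≤ (fderiv ℝ τ x).det := by
  obtain ⟨w', hw', e⟩ := hk
  obtain ⟨τ, L, U, hU, l, e1, e2, e3⟩ := h.tr w hw w' (AO hw') e.symm
  have c : ContinuousAt τ w := l.continuousOn.continuousAt hU
  refine ⟨τ, L, U ∩ τ ⁻¹' A, inter_mem hU (c (hA.mem_nhds (e1 ▸ hw'))), l.mono inter_subset_left,
    fun x hx => ?_, e3.mono fun x hx h => hx h.1⟩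
  have := iA.leftInvOn_invFunOn hx.2
  rwa [e2 x hx.1] at this

/-- Change of chart. -/
theorem At.chg (h : At Om K) {D : V → ℝ} (hD : Den Om K D) {A B : Set V} (hA : IsOpen A)
    (AO : A ⊆ Om) (iA : InjOn K A) (mB : MeasurableSet B) (BO : B ⊆ Om) (iB : InjOn K B)
    (BA : K '' B ⊆ K '' A) :
    (IntegrableOn D ((invFunOn K A ∘ K) '' B) ↔ IntegrableOn D B) ∧
      ∫ a in (invFunOn K A ∘ K) '' B, D a = ∫ a in B, D a := by
  obtain ⟨Z, z0, hZ⟩ := hD
  set τ := invFunOn K A ∘ K with hτ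
  have oA : IsOpen (K '' A) := CZI.isOpen_image rfl hA (h.lip.continuousOn.mono AO) iA
  have oW : IsOpen (Om ∩ K ⁻¹' (K '' A)) := h.lip.continuousOn.isOpen_inter_preimage h.op oA
  set W := Om ∩ K ⁻¹' (K '' A) with hW
  have BW : B ⊆ W := fun x hx => ⟨BO hx, BA (mem_image_of_mem K hx)⟩
  have t1 : ∀ x ∈ W, τ x ∈ A ∧ K (τ x) = K x := fun x hx => invFunOn_pos hx.2
  have lτ : LocallyLipschitzOn W τ := fun x hx => by
    obtain ⟨σ, L, U, hU, l, e, -⟩ := h.loc hA AO iA hx.1 hx.2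
    exact ⟨L, U, nhdsWithin_le_nhds hU, fun a ha b hb => by
      rw [show τ a = σ a from e ha, show τ b = σ b from e hb]
      exact l ha hb⟩
  have pos : ∀ᵐ x : V, x ∈ W → 0 ≤ (fderiv ℝ τ x).det := by
    have := D3LM.loc_null volume (S := {x ∈ W | ¬0 ≤ (fderiv ℝ τ x).det}) id fun x hx => by
      obtain ⟨σ, L, U, hU, -, e, p⟩ := h.loc hA AO iA hx.1.1 hx.1.2
      refine ⟨interior U, nhdsWithin_le_nhds (interior_mem_nhds.2 hU), ?_⟩
      rw [image_id]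
      refine measure_mono_null (t := {a | ¬(a ∈ U → 0 ≤ (fderiv ℝ σ a).det)})
        (fun y hy k => hy.2.2 ?_) (ae_iff.1 p)
      have : τ =ᶠ[𝓝 y] σ := mem_of_superset (mem_interior_iff_mem_nhds.1 hy.1) e
      rw [this.fderiv_eq]
      exact k (interior_subset hy.1)
    rw [image_id] at this
    exact (measure_eq_zero_iff_ae_notMem.1 this).mono fun x hx k => not_not.1 fun c => hx ⟨k, c⟩
  have nul : ∀ᵐ x : V, x ∈ W → τ x ∉ Z := by
    have := D3LM.loc_null volume (S := {x ∈ W | τ x ∈ Z}) id fun x hx => by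
      obtain ⟨U, hU, iU⟩ := h.inj x hx.1.1
      have oU : IsOpen (interior U ∩ Om) := isOpen_interior.inter h.op
      have xU : x ∈ interior U ∩ Om := ⟨mem_interior_iff_mem_nhds.2 hU, hx.1.1⟩
      have iU' : InjOn K (interior U ∩ Om) := iU.mono fun _ k => interior_subset k.1
      obtain ⟨σ, L, U', hU', l, e, -⟩ := h.loc oU inter_subset_right iU' (AO (t1 x hx.1).1)
        ⟨x, xU, (t1 x hx.1).2.symm⟩
      have c : ContinuousAt τ x := lτ.continuousOn.continuousAt (oW.mem_nhds hx.1)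
      refine ⟨(interior U ∩ Om) ∩ τ ⁻¹' U',
        nhdsWithin_le_nhds (inter_mem (oU.mem_nhds xU) (c hU')), ?_⟩
      rw [image_id]
      refine measure_mono_null (t := σ '' (U' ∩ Z)) (fun y hy => ⟨τ y, ⟨hy.1.2, hy.2.2⟩, ?_⟩)
        (D3LM.img_null volume (fun _ _ => ⟨L, _, self_mem_nhdsWithin, l.mono inter_subset_left⟩)
          (measure_mono_null inter_subset_right z0))
      rw [← e hy.1.2, comp_apply, (t1 y hy.2.1).2]
      exact iU'.leftInvOn_invFunOn hy.1.1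
    rw [image_id] at this
    exact (measure_eq_zero_iff_ae_notMem.1 this).mono fun x hx k c => hx ⟨k, c⟩
  have dτ := D3LM.ae_diff volume oW lτ
  set s := B ∩ {x | DifferentiableAt ℝ τ x} with hs
  have ms : MeasurableSet s := mB.inter (measurableSet_of_differentiableAt ℝ τ)
  have n1 : volume (B \ s) = 0 := measure_eq_zero_iff_ae_notMem.2
    (dτ.mono fun x hx k => k.2 ⟨k.1, hx (BW k.1)⟩)
  have e1 : s =ᵐ[volume] B := ae_eq_set.2 ⟨by rw [sdiff_eq_empty.2 inter_subset_left, measure_empty], n1⟩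
  have e2 : τ '' s =ᵐ[volume] τ '' B := by
    refine ae_eq_set.2 ⟨by rw [sdiff_eq_empty.2 (image_mono inter_subset_left), measure_empty],
      measure_mono_null ?_ (D3LM.img_null volume (lτ.mono fun x k => BW k.1) n1)⟩
    rintro _ ⟨⟨x, hx, rfl⟩, k⟩
    exact ⟨x, ⟨hx, fun c => k (mem_image_of_mem τ c)⟩, rfl⟩
  have hd : ∀ x ∈ s, HasFDerivWithinAt τ (fderiv ℝ τ x) s x := fun x hx =>
    hx.2.hasFDerivAt.hasFDerivWithinAt
  have hi : InjOn τ s := fun x hx y hy e => iB hx.1 hy.1 (by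
    rw [← (t1 x (BW hx.1)).2, e, (t1 y (BW hy.1)).2])
  have e3 : ∀ᵐ x : V, x ∈ s → |(fderiv ℝ τ x).det| • D (τ x) = D x := by
    filter_upwards [pos, nul] with x p1 p2 hx
    have xW := BW hx.1
    rw [abs_of_nonneg (p1 xW), smul_eq_mul]
    exact (hZ τ x xW.1 (AO (t1 x xW).1) (p2 xW) hx.2
      (mem_of_superset (oW.mem_nhds xW) fun y hy => (t1 y hy).2)).symm
  constructor
  · rw [← integrableOn_congr_set_ae e2, ← integrableOn_congr_set_ae e1,
      integrableOn_image_iff_integrableOn_abs_det_fderiv_smul volume ms hd hi]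
    exact integrableOn_congr_fun_ae ((ae_restrict_iff' ms).2 e3)
  · rw [← setIntegral_congr_set e2, ← setIntegral_congr_set e1,
      integral_image_eq_integral_abs_det_fderiv_smul volume ms hd hi]
    exact setIntegral_congr_ae ms e3

/-- A fundamental domain gives the same integral as a chart. -/
theorem At.fund (h : At Om K) {D : V → ℝ} (hD : Den Om K D) {A O : Set V} (hA : IsOpen A)
    (AO : A ⊆ Om) (iA : InjOn K A) (mO : MeasurableSet O) (sO : O ⊆ Om) (iO : InjOn K O)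
    (sur : K '' Om ⊆ K '' O) :
    (IntegrableOn D A ↔ IntegrableOn D (O ∩ K ⁻¹' (K '' A))) ∧
      ∫ a in A, D a = ∫ a in O ∩ K ⁻¹' (K '' A), D a := by
  have oA : IsOpen (K '' A) := CZI.isOpen_image rfl hA (h.lip.continuousOn.mono AO) iA
  have oW : IsOpen (Om ∩ K ⁻¹' (K '' A)) := h.lip.continuousOn.isOpen_inter_preimage h.op oA
  have mB : MeasurableSet (O ∩ K ⁻¹' (K '' A)) := by
    rw [← inter_eq_left.2 sO, inter_assoc]
    exact mO.inter oW.measurableSet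
  have := h.chg hD hA AO iA mB (fun _ k => sO k.1) (iO.mono inter_subset_left)
    (by rintro _ ⟨x, hx, rfl⟩; exact hx.2)
  have e : (invFunOn K A ∘ K) '' (O ∩ K ⁻¹' (K '' A)) = A := by
    refine Subset.antisymm (by rintro _ ⟨x, hx, rfl⟩; exact (invFunOn_pos hx.2).1) fun a ha => ?_
    obtain ⟨x, hx, e⟩ := sur (mem_image_of_mem K (AO ha))
    exact ⟨x, ⟨hx, a, ha, e.symm⟩, by rw [comp_apply, e]; exact iA.leftInvOn_invFunOn ha⟩
  rwa [e] at this

theorem At.one (h : At Om K) {A B O : Set V} (hA : IsOpen A) (AO : A ⊆ Om) (iA : InjOn K A)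
    (hB : IsCompact B) (BA : B ⊆ A) (mO : MeasurableSet O) (sO : O ⊆ Om) (iO : InjOn K O)
    (sur : K '' Om ⊆ K '' O) {C f : V → V} (lC : LocallyLipschitzOn Om (C ∘ K))
    (lf : LocallyLipschitzOn Om (f ∘ K)) (hz : ∀ w ∈ Om, K w ∉ K '' B → f (K w) = 0) :
    IntegrableOn (dv (C ∘ K) (f ∘ K)) O ∧ ∫ a in O, dv (C ∘ K) (f ∘ K) a = 0 := by
  obtain ⟨i1, i2⟩ := nl hA hB BA (lC.mono AO) (lf.mono AO) fun a ha hb =>
    hz a (AO ha) fun ⟨x, hx, e⟩ => hb (iA (BA hx) ha e ▸ hx)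
  obtain ⟨j1, j2⟩ := h.fund (den_dv h.op lC lf) hA AO iA mO sO iO sur
  have cB : IsClosed (K '' B) :=
    (hB.image_of_continuousOn (h.lip.continuousOn.mono (BA.trans AO))).isClosed
  have z : ∀ a ∈ O \ (O ∩ K ⁻¹' (K '' A)), dv (C ∘ K) (f ∘ K) a = 0 := fun a ha => by
    have aO := h.op.mem_nhds (sO ha.1)
    refine dv_zero ?_
    filter_upwards [aO, h.lip.continuousOn.continuousAt aO (cB.isOpen_compl.mem_nhds
      fun k => ha.2 ⟨ha.1, image_mono BA k⟩)] with b h1 h2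
    exact hz b h1 h2
  refine ⟨(j1.1 i1).of_forall_sdiff_eq_zero mO z, ?_⟩
  rw [setIntegral_eq_of_subset_of_forall_sdiff_eq_zero mO inter_subset_left z, ← j2, i2]

/-- The null Lagrangian on a fundamental domain of the atlas. -/
theorem At.glue (h : At Om K) {O S : Set V} (mO : MeasurableSet O) (sO : O ⊆ Om) (iO : InjOn K O)
    (sur : K '' Om ⊆ K '' O) (hS : IsCompact S) (SK : S ⊆ K '' Om) {C f : V → V}
    (lC : LocallyLipschitzOn Om (C ∘ K)) (lf : LocallyLipschitzOn Om (f ∘ K))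
    (hz : ∀ w ∈ Om, K w ∉ S → f (K w) = 0) :
    IntegrableOn (dv (C ∘ K) (f ∘ K)) O ∧ ∫ a in O, dv (C ∘ K) (f ∘ K) a = 0 := by
  have h1 : ∀ a ∈ S, ∃ A B : Set V, IsOpen A ∧ A ⊆ Om ∧ InjOn K A ∧ IsCompact B ∧ B ⊆ A ∧
      K '' B ∈ 𝓝 a := fun a ha => by
    obtain ⟨w, hw, rfl⟩ := SK ha
    obtain ⟨U, hU, iU⟩ := h.inj w hw
    have oU : IsOpen (interior U ∩ Om) := isOpen_interior.inter h.op
    have iU' : InjOn K (interior U ∩ Om) := iU.mono fun _ k => interior_subset k.1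
    obtain ⟨B, b1, b2, b3⟩ := local_compact_nhds
      (oU.mem_nhds ⟨mem_interior_iff_mem_nhds.2 hU, hw⟩)
    exact ⟨_, B, oU, inter_subset_right, iU', b3, b2, CZI.image_mem_nhds rfl b1
      (h.lip.continuousOn.mono fun _ k => (b2 k).2) (iU'.mono b2)⟩
  choose! A B a1 a2 a3 b1 b2 b3 using h1
  obtain ⟨t, t1, t2⟩ := hS.elim_nhds_subcover (fun a => interior (K '' B a))
    fun a ha => interior_mem_nhds.2 (b3 a ha)
  obtain ⟨ρ, hρ⟩ := SmoothPartitionOfUnity.exists_isSubordinate 𝓘(ℝ, V) hS.isClosed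
    (fun a : t => interior (K '' B a)) (fun _ => isOpen_interior) (by
      intro y hy
      obtain ⟨z, hz, hy⟩ := mem_iUnion₂.1 (t2 hy)
      exact mem_iUnion.2 ⟨⟨z, hz⟩, hy⟩)
  have l : ∀ i : t, LocallyLipschitzOn Om ((fun a => ρ i a • f a) ∘ K) := fun i =>
    ll_smul (ll_c1 ((ρ i).contMDiff.contDiff.of_le (by simp)) h.lip) lf
  have one := fun i : t => h.one (a1 _ (t1 _ i.2)) (a2 _ (t1 _ i.2)) (a3 _ (t1 _ i.2))
    (b1 _ (t1 _ i.2)) (b2 _ (t1 _ i.2)) mO sO iO sur lC (l i) fun w _ k => by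
      rw [image_eq_zero_of_notMem_tsupport fun c => k (interior_subset (hρ i c)), zero_smul]
  have e : dv (C ∘ K) (f ∘ K) =ᵐ[volume.restrict O]
      fun a => ∑ i : t, dv (C ∘ K) ((fun a => ρ i a • f a) ∘ K) a := by
    refine (ae_restrict_iff' mO).2 ?_
    filter_upwards [ae_all_iff.2 fun i => D3LM.ae_diff volume h.op (l i)] with a ha aO
    rw [← xDV.sum _ t _ a fun i => ha i (sO aO)]
    have : f ∘ K =ᶠ[𝓝 a] fun b => ∑ i : t, ((fun a => ρ i a • f a) ∘ K) b := by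
      filter_upwards [h.op.mem_nhds (sO aO)] with b hb
      simp only [comp_apply]
      by_cases k : K b ∈ S
      · have s1 := ρ.sum_eq_one k
        rw [finsum_eq_sum_of_fintype] at s1
        rw [← Finset.sum_smul, s1, one_smul]
      · simp [hz b hb k]
    simp only [dv, this.fderiv_eq]
  refine ⟨(integrable_finsetSum _ fun i _ => (one i).1).congr e.symm, ?_⟩
  rw [integral_congr_ae e, integral_finsetSum _ fun i _ => (one i).1]
  exact Finset.sum_eq_zero fun i _ => (one i).2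

end Pool.Agent.MP_3ee8cb_gt.CZP
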