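import Pool.Agent.MP_3ee8cb_gt.CZP.Glue
import Pool.Agent.MP_3ee8cb_gt.CZ.Defs
import Pool.Agent.MP_3ee8cb_gt.CZ.Atl

/-! The atlas of a Lipschitz front is oriented. -/

namespace Pool.Agent.MP_3ee8cb_gt.CZP

open Set Filter Topology MeasureTheory D3 D3NP Metric Function CZ
open D3GB (trip bv)
open D3AR (un)
open D3NB (Ph)
open scoped NNReal

variable {m : MF} {σ : V → V × V} {a : ℝ} {K : V → V} {Om Om0 : Set V}

theorem pk_flat (o : m.OK) (A : Atl K Om Om0) {x : V} (hx : x ∈ Om) :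
    PK m σ K (x + (-x 2) • bv 2) = σ (un (K x)) := by
  have n : ‖Real.exp (-x 2) • K x‖ = 1 := by
    rw [norm_smul, A.nrm x hx, Real.norm_of_nonneg (Real.exp_pos _).le, ← Real.exp_add,
      neg_add_cancel, Real.exp_zero]
  simp only [PK, Ph, A.tr, n, Real.log_one, o.zero, inv_one, one_smul, un]
  rw [A.nrm x hx, Real.exp_neg]

theorem trans0 (o : m.OK) (A : Atl K Om Om0) (G : Geo m σ a K Om) {w w' : V} (hw : w ∈ Om)
    (hw' : w' ∈ Om) (e : K w = K w') : ∃ (τ : V → V) (L : ℝ≥0), ∃ U ∈ 𝓝 w,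
      LipschitzOnWith L τ U ∧ τ w = w' ∧ ∀ x ∈ U, x ∈ Om ∧ τ x ∈ Om ∧ K (τ x) = K x := by
  obtain ⟨F, cF, hF⟩ := G.inv w' hw'
  have c2 : ContDiff ℝ 1 fun x : V => x 2 := (EuclideanSpace.proj 2 : V →L[ℝ] ℝ).contDiff
  have l0 : LocallyLipschitzOn Om fun x : V => x := LocallyLipschitz.id.locallyLipschitzOn
  have l1 : LocallyLipschitzOn Om (PK m σ K ∘ fun x : V => x + (-x 2) • bv 2) :=
    ll_comp G.lip (ll_c1 (g := fun x : V => x + (-x 2) • bv 2)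
      (contDiff_id.add (c2.neg.smul contDiff_const)) l0) fun x hx => A.cyl x hx _
  have l2 : LocallyLipschitzOn Om
      fun x : V => F (PK m σ K (x + (-x 2) • bv 2)) + x 2 • bv 2 :=
    (ll_c1 cF l1).add (ll_c1 (g := fun x : V => x 2 • bv 2) (c2.smul contDiff_const) l0)
  obtain ⟨L, t, ht, l⟩ := l2 hw
  rw [A.op.nhdsWithin_eq hw] at ht
  have key : ∀ x ∈ Om, ∀ v ∈ Om, F (σ (un (K v))) = v - v 2 • bv 2 → K v = K x →
      F (PK m σ K (x + (-x 2) • bv 2)) + x 2 • bv 2 = v := fun x hx v hv h1 h2 => by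
    have : v 2 = x 2 := Real.exp_injective (by rw [← A.nrm v hv, ← A.nrm x hx, h2])
    rw [pk_flat o A hx, ← h2, h1, this, sub_add_cancel]
  have N : K '' {v | v ∈ Om ∧ F (σ (un (K v))) = v - v 2 • bv 2} ∈ 𝓝 (K w) := by
    rw [e, ← A.opn w' hw']
    exact image_mem_map (inter_mem (A.op.mem_nhds hw') hF)
  refine ⟨_, L, (t ∩ Om) ∩ K ⁻¹' (K '' _), inter_mem (inter_mem ht (A.op.mem_nhds hw))
    (A.lip.continuousOn.continuousAt (A.op.mem_nhds hw) N),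
    l.mono fun _ k => k.1.1, key w hw w' hw' hF.self_of_nhds e.symm, ?_⟩
  rintro x ⟨hx, v, hv, h2⟩
  rw [key x hx.2 v hv.1 hv.2 h2]
  exact ⟨hx.2, hv.1, h2⟩

theorem frm (w : V) (B T : V →L[ℝ] V) (h : ∀ e, T e 2 = e 2) :
    trip w (B (T (bv 0))) (B (T (bv 1))) = T.det * trip w (B (bv 0)) (B (bv 1)) := by
  have h0 : T (bv 0) 2 = 0 := by rw [h]; simp [bv]
  have h1 : T (bv 1) 2 = 0 := by rw [h]; simp [bv]
  have h2 : T (bv 2) 2 = 1 := by rw [h]; simp [bv]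
  rw [D3GB.rDET3, XDV.lin B (T (bv 0)), XDV.lin B (T (bv 1))]
  simp only [trip, PiLp.add_apply, PiLp.smul_apply, smul_eq_mul, h0, h1, h2]
  ring

/-- A transition map keeps the last coordinate. -/
theorem last (A : Atl K Om Om0) {τ : V → V} {w : V} (hw : w ∈ Om) (ht : τ w ∈ Om)
    (d : DifferentiableAt ℝ τ w) (h : ∀ᶠ x in 𝓝 w, K (τ x) = K x) (e : V) :
    fderiv ℝ τ w e 2 = e 2 := by
  let p : V →L[ℝ] ℝ := EuclideanSpace.proj 2
  have q : (fun x => p (τ x)) =ᶠ[𝓝 w] p := by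
    filter_upwards [h, A.op.mem_nhds hw, d.continuousAt (A.op.mem_nhds ht)] with x h1 h2 h3
    exact Real.exp_injective (by
      change Real.exp (τ x 2) = Real.exp (x 2)
      rw [← A.nrm _ h3, ← A.nrm x h2, h1])
  have := ((p.hasFDerivAt.comp w d.hasFDerivAt).congr_of_eventuallyEq q.symm).unique p.hasFDerivAt
  exact congrArg (fun l : V →L[ℝ] ℝ => l e) this

theorem pk_tr (A : Atl K Om Om0) {τ : V → V} {w : V} (hw : w ∈ Om) (ht : τ w ∈ Om)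
    (d : DifferentiableAt ℝ τ w) (h : ∀ᶠ x in 𝓝 w, K (τ x) = K x)
    (dP : DifferentiableAt ℝ (PK m σ K) (τ w)) :
    yy m (PK m σ K) w = (fderiv ℝ τ w).det * yy m (PK m σ K) (τ w) ∧
      dl m (PK m σ K) w = (fderiv ℝ τ w).det * dl m (PK m σ K) (τ w) := by
  have e : PK m σ K =ᶠ[𝓝 w] PK m σ K ∘ τ := h.mono fun x hx => by simp only [PK, comp_apply, hx]
  have e0 : PK m σ K w = PK m σ K (τ w) := e.self_of_nhds
  have e1 : fderiv ℝ (PK m σ K) w = (fderiv ℝ (PK m σ K) (τ w)).comp (fderiv ℝ τ w) := by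
    rw [e.fderiv_eq, fderiv_comp w dP d]
  constructor
  · rw [yy, yy, ← frm _ _ _ (last A hw ht d h), Av, Av, e0, e1]
    rfl
  · rw [dl, dl, ← frm _ _ _ (last A hw ht d h), Ah, Ah, e0, e1]
    rfl

theorem den_yy (A : Atl K Om Om0) (G : Geo m σ a K Om) :
    Den Om K (yy m (PK m σ K)) ∧ Den Om K (dl m (PK m σ K)) := by
  have z : volume {a | ¬(a ∈ Om → DifferentiableAt ℝ (PK m σ K) a)} = 0 :=
    ae_iff.1 (D3LM.ae_diff volume A.op G.lip)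
  exact ⟨⟨_, z, fun τ w h1 h2 h3 h4 h5 => (pk_tr A h1 h2 h4 h5 (not_not.1 h3 h2)).1⟩,
    ⟨_, z, fun τ w h1 h2 h3 h4 h5 => (pk_tr A h1 h2 h4 h5 (not_not.1 h3 h2)).2⟩⟩

theorem at_of (o : m.OK) (A : Atl K Om Om0) (G : Geo m σ a K Om) : At Om K := by
  refine ⟨A.op, A.lip, A.inj, fun w hw w' hw' e => ?_⟩
  obtain ⟨τ, L, U, hU, l, e1, e2⟩ := trans0 o A G hw hw' e
  obtain ⟨ρ, L', U', hU', l', e1', e2'⟩ := trans0 o A G hw' hw e.symm
  obtain ⟨I, hI, iI⟩ := A.inj w hw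
  have c : ContinuousAt τ w := l.continuousOn.continuousAt hU
  have c' : ContinuousAt ρ w' := l'.continuousOn.continuousAt hU'
  have N : U ∩ I ∩ τ ⁻¹' (U' ∩ ρ ⁻¹' I) ∈ 𝓝 w :=
    inter_mem (inter_mem hU hI) (c (e1 ▸ inter_mem hU' (c' (e1' ▸ hI))))
  set W := interior (U ∩ I ∩ τ ⁻¹' (U' ∩ ρ ⁻¹' I))
  have sW : W ⊆ U ∩ I ∩ τ ⁻¹' (U' ∩ ρ ⁻¹' I) := interior_subset
  have lW : LipschitzOnWith L τ W := l.mono fun _ k => (sW k).1.1
  refine ⟨τ, L, W, interior_mem_nhds.2 N, lW, e1, fun x hx => (e2 x (sW hx).1.1).2.2, ?_⟩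
  have dP := D3LM.ae_diff volume A.op G.lip
  have z := D3LM.img_null volume
    (s := U' ∩ {a | ¬(a ∈ Om → DifferentiableAt ℝ (PK m σ K) a)}) (f := ρ)
    (fun _ _ => ⟨L', _, self_mem_nhdsWithin, l'.mono inter_subset_left⟩)
    (measure_mono_null inter_subset_right (ae_iff.1 dP))
  filter_upwards [dP, measure_eq_zero_iff_ae_notMem.1 z, D3LM.ae_diff volume isOpen_interior
    (show LocallyLipschitzOn W τ from fun _ _ => ⟨L, _, self_mem_nhdsWithin, lW⟩)]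
    with x d1 d2 d3 hx
  obtain ⟨⟨xU, xI⟩, t1, t2⟩ := sW hx
  obtain ⟨x1, x2, x3⟩ := e2 x xU
  have d4 : DifferentiableAt ℝ (PK m σ K) (τ x) := by
    by_contra k
    exact d2 ⟨τ x, ⟨t1, fun q => k (q x2)⟩, iI t2 xI ((e2' _ t1).2.2.trans x3)⟩
  have := (pk_tr A x1 x2 (d3 hx) (mem_of_superset (isOpen_interior.mem_nhds hx)
    fun y hy => (e2 y (sW hy).1.1).2.2) d4).1
  have p1 := G.pos x x1 (d1 x1)
  rw [this] at p1
  exact ((mul_pos_iff_of_pos_right (G.pos _ x2 d4)).1 p1).le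

theorem img_eq (A : Atl K Om Om0) : K '' Om = {q | q ≠ 0} ∧ K '' Om ⊆ K '' Om0 := by
  have : K '' Om ⊆ {q | q ≠ 0} := by
    rintro _ ⟨u, hu, rfl⟩ k
    have := A.nrm u hu
    rw [k, norm_zero] at this
    exact (Real.exp_pos _).ne this
  exact ⟨this.antisymm (A.bij.image_eq ▸ image_mono A.sub), A.bij.image_eq ▸ this⟩

/-- The null Lagrangian on the fundamental domain. -/
theorem nlA (h : At Om K) (A : Atl K Om Om0) {C f : V → V} {S : Set V} (hS : IsCompact S)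
    (h0 : (0 : V) ∉ S) (lC : LocallyLipschitzOn Om (C ∘ K)) (lf : LocallyLipschitzOn Om (f ∘ K))
    (hz : ∀ q, q ≠ 0 → q ∉ S → f q = 0) :
    IntegrableOn (dv (C ∘ K) (f ∘ K)) Om0 ∧ ∫ u in Om0, dv (C ∘ K) (f ∘ K) u = 0 :=
  h.glue A.ms A.sub A.bij.injOn (img_eq A).2 hS
    ((img_eq A).1 ▸ fun _ k c => h0 (c ▸ k)) lC lf fun _ hw k =>
      hz _ ((img_eq A).1.subset (mem_image_of_mem K hw)) k

end Pool.Agent.MP_3ee8cb_gt.CZP
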