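import Pool.Agent.MP_3ee8cb_gt.CZ.Spec

/-! From the abstract family to the front. -/

namespace Pool.Agent.MP_3ee8cb_gt.CZ

open Set Filter Topology MeasureTheory D3
open D3AR (un)
open D3GB (trip bv)
open D3MO (S2)
open D3NP (Cc Mi jc)
open CZK (FD Km)
open scoped RealInnerProductSpace

namespace H47

variable {m : MF} {σ : V → V × V} {b : V × V → V → ℝ} {K : V → V} {Om Om0 : Set V} {d : FD}
  {P : V → V × V} {u : V}

theorem c_eq (B : Br m σ b K Om Om0 d) : d.c = fun v => (PK m σ K v).1 := by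
  funext v
  rw [FD.c, B.c, ← B.km]
  rfl

theorem jc_ne (B : Br m σ b K Om Om0 d) (p : Pw m (PK m σ K) u) :
    jc d.c u ≠ 0 ↔ dl m (PK m σ K) u ≠ 0 := by
  rw [c_eq B, ← p.jc, mul_ne_zero_iff_left]
  intro e
  have := B.eps (PK m σ K u).1
  rw [e, mul_zero] at this
  exact lt_irrefl _ this

theorem un_km (κ : V → S2) (u : V) : un (Km κ u) = (κ u).1 := by
  rw [un, Km, norm_smul, Real.norm_of_nonneg (Real.exp_pos _).le,
    mem_sphere_zero_iff_norm.1 (κ u).2, mul_one, smul_smul, inv_mul_cancel₀ (Real.exp_pos _).ne',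
    one_smul]

theorem hf_eq (v : ℝ × ℝ) : Hf m P u v v = nf m P u (io v) := by
  simp only [Hf, nf, smul_apply, ContinuousLinearMap.bilinearComp_apply,
    ContinuousLinearMap.comp_apply, innerSL_apply_apply, smul_eq_mul]
  ring

theorem io2 (v : ℝ × ℝ) : io v 2 = 0 := by simp [io, bv]

theorem io_ne {v : ℝ × ℝ} (h : v ≠ 0) : io v ≠ 0 := fun e => by
  have h0 := congrArg (fun w : V => w 0) e
  have h1 := congrArg (fun w : V => w 1) e
  exact h (Prod.ext (by simpa [io, bv] using h0) (by simpa [io, bv] using h1))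

theorem io_sur {e : V} (h : e 2 = 0) : io (e 0, e 1) = e := by
  ext i
  fin_cases i <;> simp [io, bv, h]

theorem dep {w p q : V} (hw : ‖w‖ = 1) (hp : ⟪w, p⟫ = 0) (hq : ⟪w, q⟫ = 0)
    (ht : trip w p q = 0) : ∃ v : ℝ × ℝ, v ≠ 0 ∧ v.1 • p + v.2 • q = 0 := by
  by_cases h : p = 0
  · exact ⟨(1, 0), by simp, by simp [h]⟩
  have h1 : ⟪w, w⟫ = 1 := by rw [real_inner_self_eq_norm_sq, hw, one_pow]
  refine ⟨(-⟪p, q⟫, ⟪p, p⟫), fun e => h (inner_self_eq_zero.1 (congrArg Prod.snd e)), ?_⟩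
  simp only [PiLp.inner_apply, Fin.sum_univ_three, RCLike.inner_apply, conj_trivial, trip]
    at hp hq ht h1 ⊢
  have n0 : p 1 * q 2 - p 2 * q 1 = 0 := by
    linear_combination -(p 1 * q 2 - p 2 * q 1) * h1 + w 0 * ht +
      (w 1 * q 2 - w 2 * q 1) * hp - (w 1 * p 2 - w 2 * p 1) * hq
  have n1 : p 2 * q 0 - p 0 * q 2 = 0 := by
    linear_combination -(p 2 * q 0 - p 0 * q 2) * h1 + w 1 * ht +
      (w 2 * q 0 - w 0 * q 2) * hp - (w 2 * p 0 - w 0 * p 2) * hq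
  have n2 : p 0 * q 1 - p 1 * q 0 = 0 := by
    linear_combination -(p 0 * q 1 - p 1 * q 0) * h1 + w 2 * ht +
      (w 0 * q 1 - w 1 * q 0) * hp - (w 0 * p 1 - w 1 * p 0) * hq
  ext i
  fin_cases i <;> simp only [Fin.zero_eta, Fin.mk_one, Fin.reduceFinMk, PiLp.add_apply,
    PiLp.smul_apply, smul_eq_mul, PiLp.zero_apply]
  · linear_combination -p 1 * n2 + p 2 * n1
  · linear_combination -p 2 * n0 + p 0 * n2
  · linear_combination -p 0 * n1 + p 1 * n0

/-- A definite form forces a nonzero determinant. -/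
theorem dl_ne (hw : ‖(P u).2‖ = 1) (p : Pw m P u)
    (h : ∀ e : V, e 2 = 0 → e ≠ 0 → nf m P u e ≠ 0) : dl m P u ≠ 0 := fun e => by
  obtain ⟨v, v0, hv⟩ := dep hw ((p.leg (bv 0)).trans (by simp [bv]))
    ((p.leg (bv 1)).trans (by simp [bv])) e
  refine h _ (io2 v) (io_ne v0) ?_
  have : Ah m P u (io v) = 0 := by
    rw [← hv]
    simp [io]
  rw [nf, this, inner_zero_right, neg_zero, zero_div]

end H47

open H47

theorem rZM : R_ZM := by
  intro fd bor m lg σ a hi b T G K Om Om0 D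
  obtain ⟨d, B⟩ := fd m lg σ a hi b T G K Om Om0 D
  exact B.rs ▸ bor d B.ok

theorem rRAY : R_RAY := by
  intro pt fd down m lg σ a hi b T G K Om Om0 D u hu s hs hd
  obtain ⟨d, B⟩ := fd m lg σ a hi b T G K Om Om0 D
  have g : u + s • bv 2 ∈ d.Gd := B.ok.ginv u (B.gd ▸ ⟨hu.1, hu.2.1⟩) s
  have g' := B.gd ▸ g
  have p := (pt m lg σ a hi b T G K Om Om0 D _ (D.atl.sub g'.1)).2 g'.2
  rw [← B.rs] at hu ⊢
  refine down d B.ok _ g (-s) (neg_nonneg.2 hs) ((jc_ne B p).2 hd) ?_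
  rwa [add_assoc, ← add_smul, add_neg_cancel, zero_smul, add_zero]

theorem rTY : R_TY := by
  intro pt fd typ fin m lg σ a hi b T G K Om Om0 D u hu du
  obtain ⟨d, B⟩ := fd m lg σ a hi b T G K Om Om0 D
  have g : u ∈ d.Gd := B.gd ▸ ⟨hu, du⟩
  obtain ⟨⟨n1, -⟩, p⟩ := pt m lg σ a hi b T G K Om Om0 D u (D.atl.sub hu)
  have p := p du
  have k : un (K u) = (d.κ u).1 := by rw [B.km, un_km]
  have z : d.c u = (PK m σ K u).1 := by rw [c_eq B]
  rw [← B.rs, ← B.be, ← z, k]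
  refine ⟨fun h => ?_, fun h => ?_, fun ⟨e, e2, he⟩ => ?_⟩
  · have := (typ d B.ok u g ((jc_ne B p).2 (dl_ne n1 p fun e x y => (h e x y).ne'))).1
      fun v hv => by rw [B.H, hf_eq]; exact h _ (io2 v) (io_ne hv)
    exact ⟨this.2, fun q hq => Subtype.ext hq ▸ this.1⟩
  · have j := (jc_ne B p).2 (dl_ne n1 p fun e x y => (h e x y).ne)
    have nd : d.Nd u := fun v hv => by rw [B.H, hf_eq]; exact h _ (io2 v) (io_ne hv)
    refine ⟨(typ d B.ok u g j).2.1 nd, fun q hq => ?_⟩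
    have s := B.ok.sw u g j
    have e : -q = d.κ u := Subtype.ext (by rw [coe_neg_sphere, hq, neg_neg])
    have o := s.ch.onto _ (eventually_nhdsWithin_iff.1 s.sw)
    rw [← e] at o
    have r : ∀ y : S2, d.βs (d.c u) (-y) = -d.β (d.c u) y := fun y => by
      rw [B.bs, B.be, bT, bS, coe_neg_sphere, neg_neg]
    unfold Mi
    rw [eventually_nhdsWithin_iff]
    filter_upwards [(continuous_neg.tendsto q) o] with y hy yq
    obtain ⟨v, hv, ev⟩ := hy
    have v0 : v ≠ 0 := fun x => yq (neg_injective (by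
      subst x
      exact ev.symm.trans (s.ch.zero.trans e.symm)))
    have h1 := (hv v0).1
    have h2 := s.eq
    simp only at ev h1
    rw [ev, r] at h1
    rw [← e, r] at h2
    linarith [nd v v0]
  · obtain ⟨s, s0, hs⟩ := (Ici_infinite (0 : ℝ)).exists_notMem_finite p.zer
    have g1 := B.ok.ginv u g s
    have g' := B.gd ▸ g1
    have p' := (pt m lg σ a hi b T G K Om Om0 D _ (D.atl.sub g'.1)).2 g'.2
    obtain ⟨t, ht⟩ := fin d B.ok _ g1 ((jc_ne B p').2 hs) (e 0, e 1)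
      ((B.ok.hm u g s s0 _).trans_lt (by rwa [B.H, hf_eq, io_sur e2]))
    refine ⟨s + t, fun x hx => ?_⟩
    have := ht (x - s) (by linarith)
    rwa [add_assoc, ← add_smul, add_sub_cancel] at this

theorem rGZ : R_GZ := by
  intro pt fd tame good m lg σ a hi b T G K Om Om0 D
  obtain ⟨d, B⟩ := fd m lg σ a hi b T G K Om Om0 D
  filter_upwards [good d B.ok] with z hz
  obtain ⟨Cr, t, h⟩ := tame d B.ok z hz
  refine ⟨Cr, B.be ▸ t, fun q hq => ?_⟩
  obtain ⟨u, hu, e1, e2, -⟩ := (h q).2 hq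
  obtain ⟨g, j⟩ := hz.2.1 u hu e2
  have g' := B.gd ▸ g
  have p := (pt m lg σ a hi b T G K Om Om0 D _ (D.atl.sub g'.1)).2 g'.2
  exact ⟨u, g'.1, g'.2, (jc_ne B p).1 j, by rw [← e2, c_eq B], by rw [B.km, un_km, e1]⟩

end Pool.Agent.MP_3ee8cb_gt.CZ
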