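import Pool.Agent.MP_3ee8cb_gt.CZP.En

/-! The weak fibre inequality from the strong one. -/

namespace Pool.Agent.MP_3ee8cb_gt.CZ

open Set Filter Topology MeasureTheory D3 CZN
open D3AR (un)
open D3GB (trip bv)
open CZO (Gd)
open scoped RealInnerProductSpace ENNReal
open H47 CZK.XFUB

theorem rWF47 : R_WF := by
  intro pt _ ray ty grow fibs m m' φ lg a hi b T G K Om Om0 x o j cf D g mg h
  have pt := pt _ _ _ _ _ _ _ _ _ _ _ D
  have ray := ray _ _ _ _ _ _ _ _ _ _ _ D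
  have ty := ty _ _ _ _ _ _ _ _ _ _ _ D
  have A := D.atl
  have e : K '' Sl Om0 = {a : V | a ≠ 0 ∧ Real.log ‖a‖ ∈ Icc (0 : ℝ) (0 + 1)} := by
    ext q
    constructor
    · rintro ⟨u, hu, rfl⟩
      refine ⟨A.bij.mapsTo hu.1, ?_⟩
      rw [A.nrm u (A.sub hu.1), Real.log_exp, zero_add]
      exact hu.2
    · rintro ⟨h1, h2⟩
      obtain ⟨u, hu, rfl⟩ := A.bij.surjOn h1
      rw [A.nrm u (A.sub hu), Real.log_exp, zero_add] at h2
      exact ⟨u, ⟨hu, h2⟩, rfl⟩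
  rw [← shell mg 0, ← e, area A.op A.lip (msl A) (fun _ k => A.sub k.1)
    (A.bij.injOn.mono fun _ k => k.1)]
  refine fibs _ _ _ _ _ _ _ _ _ _ _ D _ (Eventually.of_forall fun u hu n => ?_)
  have uO := A.sub hu.1
  rw [← mul_assoc, ← ENNReal.ofReal_mul (abs_nonneg _)] at n ⊢
  obtain ⟨d, dn⟩ := g0_ne (K := K) (left_ne_zero_of_mul n)
  have n1 := norm_un (AtlK.ne A uO)
  obtain ⟨gd, hg⟩ := h _ n1 (right_ne_zero_of_mul n)
  have n0 : un (K u) ≠ 0 := norm_ne_zero_iff.1 (by rw [n1]; exact one_ne_zero)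
  have dσ := gd.dif.hasFDerivAt.comp (un (K u)) (hasFDerivAt_prodMk_right x (un (K u)))
  have l := link D.ok D.jac A uO d (σ := fr φ x) dσ.differentiableAt
    fun r hr => D.geo.hom r _ hr.ne' n0
  have p := (pt u uO).2 (by simpa using (l 0).1)
  obtain ⟨T₀, hT⟩ := grow m m' φ a _ o j D.ok D.jac cf D.a0 D.up gd
  have inj : ∀ e, e ≠ 0 → fderiv ℝ K u e ≠ 0 := fun e e0 c => dn
    (LinearMap.det_eq_zero_iff_ker_ne_bot.2 ((Submodule.ne_bot_iff _).2 ⟨e, c, e0⟩))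
  have f : ∀ (s : ℝ) (e : V), e 2 = 0 → nf m' (PK m' (fr φ x) K) (u + s • bv 2) e =
      -((Real.exp (u 2))⁻¹ ^ 2 / 2 *
        ⟪m'.J (φ (x, un (K u))) (fderiv ℝ φ (x, un (K u)) (0, fderiv ℝ K u e)) (u 2 + s),
          m'.J' (φ (x, un (K u))) (fderiv ℝ φ (x, un (K u)) (0, fderiv ℝ K u e)) (u 2 + s)⟫) := by
    intro s e he
    rw [nf, ((l s).2.1 e he).1, ((l s).2.1 e he).2, D3NP.At_apply, D3NP.At2_apply,
      AtlK.perp A uO d he, zero_smul, sub_zero, real_inner_smul_left, real_inner_smul_right,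
      real_inner_comm, show fderiv ℝ (fr φ x) (un (K u)) = _ from dσ.fderiv]
    simp only [ContinuousLinearMap.comp_apply, ContinuousLinearMap.inr_apply, fr]
    ring
  have c : 0 < (Real.exp (u 2))⁻¹ ^ 2 / 2 := by positivity
  have ty' := fun s => ty _ (A.cyl0 u hu.1 s) (p.dif s)
  obtain ⟨τ, hτ⟩ := low_half
    (I := {s : ℝ | ∃ s', s ≤ s' ∧ u + s' • bv 2 ∈ Zs m' (fr φ x) b K Om0})
    (fun _ _ l ⟨s', h1, h2⟩ => ⟨s', l.trans h1, h2⟩)
    ⟨-T₀ - u 2, _, le_rfl, ((ty' _).1 fun e he e0 => by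
      rw [f _ e he, neg_pos]
      exact mul_neg_of_pos_of_neg c
        ((hT _ _ (AtlK.perp A uO d he) (inj e e0)).2 (by linarith))).1⟩
    ⟨T₀ - u 2, fun ⟨s', h1, h2⟩ => ((ty' _).2.1 fun e he e0 => by
      rw [f _ e he, neg_neg_iff_pos]
      exact mul_pos c ((hT _ _ (AtlK.perp A uO d he) (inj e e0)).1 (by linarith))).1 h2⟩
  refine ⟨τ, ?_, ?_⟩
  · filter_upwards [hτ, p.zer.countable.ae_notMem volume] with s h1 h2
    refine ⟨fun z => h1.1 ⟨s, le_rfl, z⟩, fun l => ?_⟩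
    obtain ⟨s', l1, l2⟩ := h1.2 l
    have := ray _ l2 (s - s') (by linarith)
    rw [asc, add_sub_cancel] at this
    exact this h2
  · rw [← abs_of_pos (D.geo.pos _ (A.cyl u uO τ) (p.dif τ)), (l τ).2.2,
      ENNReal.ofReal_mul (p := g0 K u) (by unfold g0; positivity)]
    exact mul_le_mul_right (hg _) _

end Pool.Agent.MP_3ee8cb_gt.CZ
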