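import Pool.Agent.MP_3ee8cb_gt.CZ.Top
import Pool.Agent.MP_3ee8cb_gt.CZP.Wf
import Pool.Agent.MP_3ee8cb_gt.CZK.XTop
import Pool.Agent.MP_3ee8cb_gt.CZK.RBOR
import Pool.Agent.MP_3ee8cb_gt.CZK.RGOOD
import Pool.Agent.MP_3ee8cb_gt.CZK.REVT
import Pool.Agent.MP_3ee8cb_gt.CZK.RJC
import Pool.Agent.MP_3ee8cb_gt.CZK.RLINE
import Pool.Agent.MP_3ee8cb_gt.CZK.RSP30
import Pool.Agent.MP_3ee8cb_gt.CZH.Fibs
import Pool.Agent.MP_3ee8cb_gt.CZF.RFibs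
import Pool.Agent.MP_3ee8cb_gt.CZG.Fin
import Pool.Agent.MP_3ee8cb_gt.CZI.RATL
import Pool.Agent.MP_3ee8cb_gt.CZL.Row
import Pool.Agent.MP_3ee8cb_gt.CZM.RFD
import Pool.Agent.MP_3ee8cb_gt.CZM.RSTM
import Pool.Agent.MP_3ee8cb_gt.CZO.Fin
import Pool.Agent.MP_3ee8cb_gt.CZQ.RPZ
import Pool.Agent.MP_3ee8cb_gt.CZQ.Lip
import Pool.Agent.MP_3ee8cb_gt.CZS.Sw
import Pool.Agent.MP_3ee8cb_gt.CZS.Ray
import Pool.Agent.MP_3ee8cb_gt.D3JC.Out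
import Pool.Agent.MP_3ee8cb_gt.D3FL.RFM
import Pool.Agent.MP_3ee8cb_gt.D3FL.RCN
import Pool.Agent.MP_3ee8cb_gt.D3FL.RCV
import Pool.Agent.MP_3ee8cb_gt.D3FL.RGL
import Pool.Agent.MP_3ee8cb_gt.D3FL.RFC
import Pool.Agent.MP_3ee8cb_gt.D3FL.F3
import Pool.Agent.MP_3ee8cb_gt.TB.RGAM
import Pool.Agent.MP_3ee8cb_gt.TB.RODE
import Pool.Agent.MP_3ee8cb_gt.D3FL.HHAD
import Pool.Agent.MP_3ee8cb_gt.D3FL.HFLP
import Pool.Agent.MP_3ee8cb_gt.D3AC.Act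

/-! Rigidity under a continuous conjugacy in dimension three. -/

namespace Pool.Agent.MP_3ee8cb_gt.CZ.H47

open D3

theorem fd : SFD := CZM.rFD CZS.sPT
theorem zm : SZM := rZM fd CZK.bor
theorem ray : SRAY := rRAY CZS.sPT fd CZK.xDOWN
theorem ty : STY := rTY CZS.sPT fd CZK.xTYP CZK.xFIN
theorem gz : SGZ := rGZ CZS.sPT fd CZK.xTAME CZK.good
theorem pz : SPZ := rPZ CZS.sPT fd
  (CZK.pos30 CZK.bor (CZK.sli30 (CZK.evt (CZK.rjc CZK.xFUB) CZK.good) CZK.xLINE CZK.bor))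
theorem fibs : SFIBS := rFIBS CZS.sPT zm ray ty pz (CZG.rGB CZS.sPT) CZH.sFIBS
theorem wf : SWF := rWF47 CZS.sPT zm ray ty CZO.sGROW fibs
theorem en : SEN := rEN47 CZS.sPT fd zm ray ty gz CZO.sGROW fibs

theorem main_of (lip : SLIP) : MainZ :=
  mainZ sJAC (D3FL.frm_of TB.gam TB.ode D3FL.fm D3FL.cn D3FL.cv D3FL.gl D3FL.fc)
    (D3FL.frm3_of TB.ode D3FL.cn D3FL.cv D3FL.gl D3FL.fc) D3FL.had sACT D3FL.flp
    (fun _ _ _ _ _ _ q _ _ ha hc => (CZM.nh_of q ha hc).min) sEND0 lip sGDA CZI.satl CZM.rSTM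
    CZS.sSW wf en CZO.sODE

theorem main : MainZ := main_of CZQ.sLIP

end Pool.Agent.MP_3ee8cb_gt.CZ.H47
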