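import Pool.Agent.MP_3ee8cb_gt.CZP.Rows
import Pool.Agent.MP_3ee8cb_gt.CZK.XFUB
import Pool.Agent.MP_3ee8cb_gt.CZN.Link
import Pool.Agent.MP_3ee8cb_gt.CZN.Sing
import Pool.Agent.MP_3ee8cb_gt.CZN.One
import Pool.Agent.MP_3ee8cb_gt.CZN.End0
import Pool.Agent.MP_3ee8cb_gt.D3MO.Sph

/-! The equality case: all geodesics of a front pass through one point. -/

namespace Pool.Agent.MP_3ee8cb_gt.CZ

open Set Filter Topology MeasureTheory D3 CZN
open D3AR (un)
open D3GB (trip bv)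
open D3MO (S2)
open D3NP (Cc Mi Lw jc)
open D3NB (Ph)
open CZO (Gd Foc)
open scoped RealInnerProductSpace ENNReal

namespace H47

variable {m m' : MF} {σ : V → V × V} {b : V × V → V → ℝ} {K : V → V} {Om Om0 : Set V} {u : V}
  {a : ℝ}

theorem msl (A : Atl K Om Om0) : MeasurableSet (Sl Om0) :=
  A.ms.inter (CZK.XFUB.c2.measurable measurableSet_Icc)

theorem mass (A : Atl K Om Om0) :
    ∫⁻ u in Sl Om0, ENNReal.ofReal (g0 K u) = (volume : Measure V).toSphere univ := by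
  have e : K '' Sl Om0 = {a : V | a ≠ 0 ∧ Real.log ‖a‖ ∈ Icc (0 : ℝ) (0 + 1)} := by
    ext q
    constructor
    · rintro ⟨u, hu, rfl⟩
      refine ⟨A.bij.mapsTo hu.1, ?_⟩
      rw [A.nrm u (A.sub hu.1), Real.log_exp, zero_add]
      exact hu.2
    · rintro ⟨h1, h2⟩
      obtain ⟨u, hu, rfl⟩ := A.bij.surjOn h1
      rw [A.nrm u (A.sub hu), Real.log_exp, zero_add] at h2
      exact ⟨u, ⟨hu, h2⟩, rfl⟩
  have := shell (g := fun _ => 1) measurable_const 0
  rw [← e, area A.op A.lip (msl A) (fun _ k => A.sub k.1) (A.bij.injOn.mono fun _ k => k.1),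
    lintegral_one] at this
  rw [← this]
  exact lintegral_congr fun u => by rw [mul_one, g0, ENNReal.ofReal_mul (abs_nonneg _)]

theorem g0_ne (h : ENNReal.ofReal (g0 K u) ≠ 0) :
    DifferentiableAt ℝ K u ∧ (fderiv ℝ K u).det ≠ 0 := by
  have : (fderiv ℝ K u).det ≠ 0 := fun e => h (by simp [g0, e])
  refine ⟨not_not.1 fun k => this ?_, this⟩
  rw [fderiv_zero_of_not_differentiableAt k, D3GB.rDET3]
  simp [trip]

theorem my (o : m.OK) (A : Atl K Om Om0) (G : Geo m σ a K Om) :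
    ∃ y : V → ℝ, Measurable y ∧ EqOn y (yy m (PK m σ K)) Om := by
  classical
  have mP : Measurable (Om.piecewise (PK m σ K) fun _ => 0) :=
    G.lip.continuousOn.measurable_piecewise continuousOn_const A.op.measurableSet
  have c0 := o.com.continuous
  have c : Continuous fun x : (V × V) × (V →L[ℝ] V × V) =>
      trip x.1.2 ((x.2 (bv 0)).2 + m.om (x.1.1) (x.2 (bv 0)).1 x.1.2)
        ((x.2 (bv 1)).2 + m.om (x.1.1) (x.2 (bv 1)).1 x.1.2) := by
    unfold trip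
    fun_prop
  refine ⟨_, c.measurable.comp (mP.prodMk (measurable_fderiv ℝ (PK m σ K))), fun u hu => ?_⟩
  simp only [Function.comp_apply, piecewise_eq_of_mem _ _ _ hu]
  rfl

theorem pc (A : Atl K Om Om0) (hu : u ∈ Om) {q : S2} (h : q.1 = un (K u)) :
    (PK m σ K u).1 = cc m σ q (u 2) := by
  rw [PK, Ph, cc, h, un, A.nrm u hu, Real.log_exp]

theorem flip (j : m.Jac) (G : Geo m σ a K Om) (p : S2) (t : ℝ) :
    cc m σ (-p) t = cc m σ p (-t) := by
  have n : p.1 ≠ 0 := ne_zero_of_mem_unit_sphere p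
  rw [cc, cc, coe_neg_sphere, ← neg_one_smul ℝ p.1, G.hom _ _ (by norm_num) n, j.scale,
    neg_one_mul]

theorem foc {φ : V × V → V × V} {x : V} (o : m'.OK) (j : m'.Jac) (A : Atl K Om Om0)
    (G : Geo m' (fr φ x) a K Om) (hu : u ∈ Om) (d : DifferentiableAt ℝ K u)
    (pw : DifferentiableAt ℝ (PK m' (fr φ x) K) u → Pw m' (PK m' (fr φ x) K) u)
    (g : Gd m m' φ a (x, un (K u))) (f : Foc m' φ x (un (K u))) :
    Pw m' (PK m' (fr φ x) K) u ∧ ∃ s₀ : ℝ,
      (∀ s, s < s₀ → Mn m' (PK m' (fr φ x) K) (u + s • bv 2)) ∧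
      (∀ s, s₀ < s → Mx m' (PK m' (fr φ x) K) (u + s • bv 2)) ∧
      (∀ e : V, e 2 = 0 → nf m' (PK m' (fr φ x) K) (u + s₀ • bv 2) e = 0) ∧
      yy m' (PK m' (fr φ x) K) (u + s₀ • bv 2) = g0 K u := by
  obtain ⟨τ, f1, f2, -⟩ := f
  have n : un (K u) ≠ 0 := norm_ne_zero_iff.1 (by rw [norm_un (AtlK.ne A hu)]; exact one_ne_zero)
  have l := link o j A hu d (σ := fr φ x)
    (g.dif.comp (un (K u)) ((differentiableAt_const x).prodMk differentiableAt_id))
    fun r hr => G.hom r _ hr.ne' n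
  have p := pw (by simpa using (l 0).1)
  obtain ⟨l1, l2, l3⟩ := l (τ - u 2)
  rw [add_sub_cancel] at l2 l3
  have z : ∀ e : V, e 2 = 0 → nf m' (PK m' (fr φ x) K) (u + (τ - u 2) • bv 2) e = 0 :=
    fun e he => by rw [nf, (l2 e he).1, f1]; simp
  refine ⟨p, τ - u 2, fun s hs e he e0 => ?_, fun s hs e he e0 => ?_, z, ?_⟩
  · exact (z e he).symm.trans_lt (p.anti e he e0 hs)
  · exact (p.anti e he e0 hs).trans_eq (z e he)
  · rwa [f2, mul_one, abs_of_pos (G.pos _ (A.cyl u hu _) l1)] at l3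

end H47

open H47 CZK.XFUB

theorem rEN47 : R_EN := by
  intro pt _ zm ray ty gz _ fibs m m' φ lg a hi b T G K Om Om0 x _ _ _ D h
  have pt := pt _ _ _ _ _ _ _ _ _ _ _ D
  have zm := zm _ _ _ _ _ _ _ _ _ _ _ D
  have ray := ray _ _ _ _ _ _ _ _ _ _ _ D
  have ty := ty _ _ _ _ _ _ _ _ _ _ _ D
  have gz := gz _ _ _ _ _ _ _ _ _ _ _ D
  have fibs := fibs _ _ _ _ _ _ _ _ _ _ _ D
  have A := D.atl
  have fo : ∀ᵐ u : V, u ∈ Om → ENNReal.ofReal (g0 K u) ≠ 0 → _ :=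
    (ae_reg K (ae_cone (Q := fun q => Gd m m' φ a (x, q) ∧ Foc m' φ x q) h)).mono
      fun u k hu g => foc D.ok D.jac A D.geo hu (g0_ne g).1 (pt u hu).2
        (k (g0_ne g).1 (g0_ne g).2).1 (k (g0_ne g).1 (g0_ne g).2).2
  set σ := fr φ x
  set P := PK m' σ K
  set Z := Zs m' σ b K Om0
  obtain ⟨y, my, ey⟩ := my D.ok A D.geo
  have sg := sing (S := Sl Om0) (R := Z) (e := bv 2) (g := fun u => ENNReal.ofReal (g0 K u))
    (msl A) zm my (measure_ne_top (volume : Measure V).toSphere univ)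
    (fun g _ hg => fibs g (Eventually.of_forall fun u hu k => by
      obtain ⟨τ, h1, h2⟩ := hg u k
      exact ⟨τ, h1, ey (A.cyl u (A.sub hu.1) τ) ▸ h2⟩)) (mass A).ge (by
      filter_upwards [fo] with u k hu g
      obtain ⟨p, s₀, h1, h2, -, h4⟩ := k (A.sub hu.1) g
      refine ⟨s₀, (Measure.ae_ne volume s₀).mono fun t ht => ?_, ?_⟩
      · have := ty _ (A.cyl0 u hu.1 t) (p.dif t)
        exact ⟨fun z => lt_of_le_of_ne (not_lt.1 fun c => (this.2.1 (h2 t c)).1 z) ht,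
          fun c => (this.1 (h1 t c)).1⟩
      · rw [ey (A.cyl u (A.sub hu.1) s₀), h4])
  have back : ∀ (u : V) (t : ℝ), u + t • bv 2 + (-t) • bv 2 = u := fun u t => by
    rw [asc, add_neg_cancel, zero_smul, add_zero]
  have W : ∀ᵐ u : V, ∀ t : ℝ, u + t • bv 2 ∈ Z → Mn m' P (u + t • bv 2) := by
    refine inv _ (fun u s k t => by rw [asc]; exact k _) ?_
    filter_upwards [fo, sg] with u k1 k2 hu t hz
    have p := (pt _ (A.sub hz.1)).2 hz.2.1
    have tv := ty _ hz.1 hz.2.1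
    rcases lt_or_gt_of_ne hz.2.2.1 with c | c
    swap
    · exact (p.dp c).resolve_right fun k => (tv.2.1 k).1 hz
    exfalso
    obtain ⟨-, e, -, e2, -, he⟩ := p.dm c
    obtain ⟨t₀, h0⟩ := tv.2.2 ⟨e, e2, he⟩
    have u0 : u ∈ Om0 := back u t ▸ A.cyl0 _ hz.1 (-t)
    have pu := (pt u (A.sub u0)).2 (back u t ▸ p.dif (-t))
    obtain ⟨τ, hτ⟩ := low_half (I := {s : ℝ | ∃ s', s ≤ s' ∧ u + s' • bv 2 ∈ Z})
      (fun _ _ l ⟨s', h1, h2⟩ => ⟨s', l.trans h1, h2⟩) ⟨t, t, le_rfl, hz⟩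
      ⟨t + t₀, fun ⟨s', h1, h2⟩ => h0 (s' - t) (by linarith) (by rwa [asc, add_sub_cancel])⟩
    have g := k2 ⟨u0, hu⟩ τ (by
      filter_upwards [hτ, pu.zer.countable.ae_notMem volume] with s h1 h2
      refine ⟨fun z => h1.1 ⟨s, le_rfl, z⟩, fun l => ?_⟩
      obtain ⟨s', l1, l2⟩ := h1.2 l
      have := ray _ l2 (s - s') (by linarith)
      rw [asc, add_sub_cancel] at this
      exact this h2) (by
      rw [ey (A.cyl u (A.sub u0) τ)]
      exact D.geo.pos _ (A.cyl u (A.sub u0) τ) (pu.dif τ))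
    obtain ⟨-, s₀, h1, h2, h3, -⟩ := k1 (A.sub u0) g
    have e0 : e ≠ 0 := fun z => by simp [z, nf] at he
    rcases lt_trichotomy t s₀ with l | l | l
    · exact lt_asymm he (h1 t l e e2 e0)
    · exact he.ne (l ▸ h3 e e2)
    · exact (tv.2.1 (h2 t l)).1 hz
  have lC : LocallyLipschitzOn Om0 fun v => (P v).1 := fun v hv => by
    obtain ⟨L, U, hU, l⟩ := D.geo.lip.mono A.sub hv
    exact ⟨_, U, hU, LipschitzWith.prod_fst.comp_lipschitzOnWith l⟩
  have Q : ∀ᵐ z : V, ∀ p, Mi (bS b σ z) p → ∀ q, bS b σ z p ≤ bS b σ z q := by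
    filter_upwards [gz, ae_img (Q := fun u => u ∈ Z → Mn m' P u) lC
      (W.mono fun u k _ => by simpa using k 0)] with z ⟨Cr, tm, k1⟩ k2 p hp
    have := D3MO.sSph.2.1
    have := D3MO.sSph.2.2
    refine CZN.one_min tm (fun q hq => ?_) hp
    obtain ⟨u, hu, d, n, e1, e2⟩ := k1 q hq
    by_cases c : u ∈ Z
    · exact Or.inl (e1 ▸ ((ty u hu d).1 (k2 u hu e1 c)).2 q e2)
    · refine Or.inr (not_not.1 fun l => c ⟨hu, d, n, fun p' e3 k => l ?_⟩)
      have v : bS b σ z q = Real.log ‖K u‖ := by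
        rw [← e1, pc A (A.sub hu) e2, D.tx.val, A.nrm u (A.sub hu), Real.log_exp]
      obtain rfl : p' = q := Subtype.ext (e3.trans e2.symm)
      rw [Lw, v, ← e1]
      exact k
  obtain ⟨u, ⟨hu, g⟩, k1, k2⟩ : ∃ u, (u ∈ Sl Om0 ∧ ENNReal.ofReal (g0 K u) ≠ 0) ∧ _ := by
    refine Frequently.exists (Frequently.and_eventually (fun c => ?_)
      (fo.and (ray_ae (ae_reg (fun v => (P v).1) Q) (bv 2))))
    have : ∫⁻ u in Sl Om0, ENNReal.ofReal (g0 K u) = 0 := by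
      rw [lintegral_congr_ae ((ae_restrict_iff' (msl A)).2
        (c.mono fun u k hu => not_not.1 fun l => k ⟨hu, l⟩)), lintegral_zero]
    rw [mass A, Measure.toSphere_apply_univ] at this
    exact mul_ne_zero (by simp) (Metric.measure_ball_pos _ _ one_pos).ne' this
  have uO := A.sub hu.1
  obtain ⟨pu, s₀, h1, h2, -⟩ := k1 uO g
  let p : S2 := ⟨un (K u), mem_sphere_zero_iff_norm.2 (norm_un (AtlK.ne A uO))⟩
  have key : ∀ᵐ s : ℝ, (s < s₀ → ∀ q, u 2 + s ≤ bS b σ (cc m' σ p (u 2 + s)) q) ∧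
      (s₀ < s → ∀ q, -(u 2 + s) ≤ bS b σ (cc m' σ (-p) (-(u 2 + s))) q) := by
    filter_upwards [k2] with s k
    have vO := A.cyl u uO s
    have tv := ty _ (A.cyl0 u hu.1 s) (pu.dif s)
    have pv := (pt _ vO).2 (pu.dif s)
    have e : p.1 = un (K (u + s • bv 2)) := (AtlK.unt A u s).symm
    have z : (P (u + s • bv 2)).1 = cc m' σ p (u 2 + s) := by rw [pc A vO e, co2]
    have k' := fun n : ∀ e : V, e 2 = 0 → e ≠ 0 → nf m' P (u + s • bv 2) e ≠ 0 =>
      k (pu.dif s).fst (right_ne_zero_of_mul (pv.jc ▸ dl_ne (pt _ vO).1.1 pv n))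
    refine ⟨fun l q => ?_, fun l q => ?_⟩
    · have := k' (fun e x y => (h1 s l e x y).ne') p ((tv.1 (h1 s l)).2 p e) q
      rwa [z, D.tx.val] at this
    · have := k' (fun e x y => (h2 s l e x y).ne) (-p)
        ((tv.2.1 (h2 s l)).2 (-p) (by rw [coe_neg_sphere, e])) q
      rwa [z, ← neg_neg (u 2 + s), ← flip D.jac D.geo, D.tx.val] at this
  have fin := (end0 Neg.neg (cc m' σ) (bS b σ) neg_neg
    (fun q => D.tx.ts.cb.comp (Continuous.prodMk_left q))
    (fun q => (continuous_iff_continuousAt.2 fun t => (D.ok.ode (σ q.1) t).continuousAt).fst)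
    (flip D.jac D.geo) D.tx.val (fun z q => ⟨_, D.tx.ts.tm z q⟩)
    (fun z q e => D.tx.crit z q e.symm) p (u 2 + s₀) (by
      filter_upwards [(measurePreserving_add_left volume (-u 2)).quasiMeasurePreserving.ae key]
        with t k l
      simpa using k.1 (by linarith)) (by
      filter_upwards [(Measure.measurePreserving_sub_left volume (-u 2)).quasiMeasurePreserving.ae
        key] with t k l
      have := k.2 (by linarith)
      rwa [show -(u 2 + (-u 2 - t)) = t by ring] at this)).2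
  intro q q' n n'
  have := (fin ⟨q, mem_sphere_zero_iff_norm.2 n⟩).trans
    (fin ⟨q', mem_sphere_zero_iff_norm.2 n'⟩).symm
  rwa [cc, cc, D.ok.zero, D.ok.zero] at this

end Pool.Agent.MP_3ee8cb_gt.CZ
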