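import Pool.Agent.MP_3ee8cb_gt.D3NP.XDV
import Pool.Agent.MP_57541a_gt.H19.Null

/-! Null Lagrangians for Lipschitz maps. -/

namespace Pool.Agent.MP_3ee8cb_gt.CZP

open Set Filter Topology MeasureTheory D3 D3NP Metric
open D3GB (trip bv)
open scoped NNReal

theorem nullV {P₀ P₁ : V → V} {K₀ K₁ : ℝ≥0} {Ω : Set V} (h₀ : LipschitzWith K₀ P₀)
    (h₁ : LipschitzWith K₁ P₁) (m : MeasurableSet Ω) (b : Bornology.IsBounded Ω)
    (he : ∀ x, x ∉ Ω → P₀ x = P₁ x) : ∫ x in Ω, jc P₀ x = ∫ x in Ω, jc P₁ x := by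
  let e : V ≃L[ℝ] (Fin 3 → ℝ) := EuclideanSpace.equiv (Fin 3) ℝ
  have mp : MeasurePreserving e.symm := PiLp.volume_preserving_toLp (Fin 3)
  have me : MeasurableEmbedding e.symm := e.symm.toHomeomorph.measurableEmbedding
  have key : ∀ P : V → V, ∫ x in Ω, jc P x =
      ∫ x in e.symm ⁻¹' Ω, (fderiv ℝ (e ∘ P ∘ e.symm) x).det := fun P => by
    rw [← mp.setIntegral_preimage_emb me]
    refine integral_congr_ae (Eventually.of_forall fun x => ?_)
    simp only [jc]
    rw [e.comp_fderiv, e.symm.comp_right_fderiv]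
    exact (LinearMap.det_conj (fderiv ℝ P (e.symm x) : V →ₗ[ℝ] V) e.toLinearEquiv).symm
  have lip : ∀ {P : V → V} {K : ℝ≥0}, LipschitzWith K P → K ≤ max K₀ K₁ →
      LipschitzWith (‖(e : V →L[ℝ] Fin 3 → ℝ)‖₊ * (max K₀ K₁ * ‖(e.symm : (Fin 3 → ℝ) →L[ℝ] V)‖₊))
        (e ∘ P ∘ e.symm) := fun h hK => e.lipschitz.comp ((h.weaken hK).comp e.symm.lipschitz)
  rw [key, key]
  refine MP_57541a_gt.H19.null 3 _ _ _ _ (lip h₀ (le_max_left _ _)) (lip h₁ (le_max_right _ _))
    (me.measurable m) ?_ fun x hx => by simp only [Function.comp, he _ hx]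
  rw [← e.image_eq_preimage_symm]
  exact e.lipschitz.isBounded_image b

theorem jc_int {P : V → V} {K : ℝ≥0} (h : LipschitzWith K P) {Ω : Set V}
    (b : volume Ω ≠ ⊤) : IntegrableOn (jc P) Ω := by
  obtain ⟨M, hM⟩ := (isCompact_closedBall (0 : V →L[ℝ] V) K).exists_bound_of_continuousOn
    (f := fun A => A.det) ContinuousLinearMap.continuous_det.continuousOn
  refine Measure.integrableOn_of_bounded b
    (ContinuousLinearMap.continuous_det.measurable.comp (measurable_fderiv ℝ P)).aestronglyMeasurable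
    (M := M) (Eventually.of_forall fun a => hM _ ?_)
  rw [mem_closedBall_zero_iff]
  exact norm_fderiv_le_of_lipschitz ℝ h

theorem bas (v : V) : ∑ i, v i • bv i = v := by
  ext j
  fin_cases j <;> simp [bv, Fin.sum_univ_three]

theorem dv_zero {C f : V → V} {a : V} (h : f =ᶠ[𝓝 a] fun _ => 0) : dv C f a = 0 := by
  have d : fderiv ℝ f a = 0 := by
    rw [h.fderiv_eq]
    exact (hasFDerivAt_const (0 : V) a).fderiv
  simp only [dv, d, zero_apply, XDV.tzero, add_zero]

theorem nl0 {C f : V → V} {K₀ K₁ : ℝ≥0} (hC : LipschitzWith K₀ C) (hf : LipschitzWith K₁ f)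
    {K : Set V} (hK : IsCompact K) (hz : ∀ a, a ∉ K → f a = 0) :
    IntegrableOn (dv C f) K ∧ ∫ a in K, dv C f a = 0 := by
  let pr : Fin 3 → V →L[ℝ] ℝ := fun i => EuclideanSpace.proj i
  let L : Fin 3 → V × V →L[ℝ] V := fun i => ContinuousLinearMap.fst ℝ V V +
    ((pr i).comp (ContinuousLinearMap.snd ℝ V V) -
      (pr i).comp (ContinuousLinearMap.fst ℝ V V)).smulRight (bv i)
  have l : ∀ i, pr i (bv i) = 1 := fun i => by simp [pr, bv]
  have hL : ∀ i x y, L i (x, y) = x + (y i - pr i x) • bv i := fun i x y => by simp [L, pr]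
  have l0 : ∀ i, LipschitzWith (‖L i‖₊ * max K₀ K₁)
      fun b => C b + (f b i - pr i (C b)) • bv i := fun i => by
    have := (L i).lipschitz.comp (hC.prodMk hf)
    simpa only [Function.comp_def, hL] using this
  have l1 : ∀ i, LipschitzWith (‖L i‖₊ * max K₀ 0)
      fun b => C b + ((0 : ℝ) - pr i (C b)) • bv i := fun i => by
    have := (L i).lipschitz.comp (hC.prodMk (LipschitzWith.const (0 : V)))
    simpa only [Function.comp_def, hL, PiLp.zero_apply] using this
  have e : dv C f =ᵐ[volume.restrict K]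
      fun a => ∑ i, jc (fun b => C b + (f b i - pr i (C b)) • bv i) a := by
    refine ae_restrict_of_ae ?_
    filter_upwards [hC.ae_differentiableAt, hf.ae_differentiableAt] with a h1 h2
    have du : ∀ i, DifferentiableAt ℝ (fun b => f b i) a := fun i =>
      (pr i).differentiableAt.comp a h2
    have := xDV.sum C (Fin 3) (fun i b => f b i • bv i) a fun i => (du i).smul_const _
    simp only [bas] at this
    rw [this]
    exact Finset.sum_congr rfl fun i _ => (xDV.det C _ _ _ a (l i) h1 (du i)).symm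
  have it : ∀ i, IntegrableOn (jc fun b => C b + (f b i - pr i (C b)) • bv i) K := fun i =>
    jc_int (l0 i) hK.measure_lt_top.ne
  refine ⟨(integrable_finsetSum _ fun i _ => it i).congr e.symm, ?_⟩
  rw [integral_congr_ae e, integral_finsetSum _ fun i _ => it i]
  refine Finset.sum_eq_zero fun i _ => ?_
  rw [nullV (l0 i) (l1 i) hK.measurableSet hK.isBounded fun x hx => by simp [hz x hx]]
  refine integral_eq_zero_of_ae (ae_restrict_of_ae ?_)
  filter_upwards [hC.ae_differentiableAt] with a h1
  rw [xDV.det C (fun _ => 0) _ _ a (l i) h1 (differentiableAt_const _)]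
  exact dv_zero (Eventually.of_forall fun b => zero_smul _ _)

/-- A locally Lipschitz map with compact support in an open set, extended by zero. -/
theorem lip_ind {F : Type*} [NormedAddCommGroup F] {f : V → F} {O K : Set V} (hO : IsOpen O)
    (hK : IsCompact K) (KO : K ⊆ O) (lf : LocallyLipschitzOn O f)
    (hz : ∀ a ∈ O, a ∉ K → f a = 0) : ∃ L, LipschitzWith L (K.indicator f) := by
  obtain ⟨δ, d0, hδ⟩ := hK.exists_cthickening_subset_open hO KO
  obtain ⟨L, hL⟩ := (lf.mono hδ).exists_lipschitzOnWith_of_compact (hK.cthickening (r := δ))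
  obtain ⟨M, hM⟩ := hK.exists_bound_of_continuousOn (lf.continuousOn.mono KO)
  have eq : ∀ a ∈ cthickening δ K, K.indicator f a = f a := fun a ha => by
    by_cases h : a ∈ K
    · exact indicator_of_mem h f
    · rw [indicator_of_notMem h, hz a (hδ ha) h]
  have far : ∀ a b, b ∉ cthickening δ K →
      dist (K.indicator f a) (K.indicator f b) ≤ (L + |M| / δ) * dist a b := fun a b hb => by
    rw [indicator_of_notMem fun h => hb (self_subset_cthickening K h), dist_zero_right]
    by_cases h : a ∈ K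
    · have : δ ≤ dist a b := by
        by_contra c
        exact hb (mem_cthickening_of_dist_le b a δ K h (by rw [dist_comm]; linarith))
      rw [indicator_of_mem h]
      have e : |M| / δ * δ = |M| := by field_simp
      have := mul_le_mul_of_nonneg_left this (show 0 ≤ |M| / δ by positivity)
      have := mul_nonneg L.2 (dist_nonneg (x := a) (y := b))
      have := hM a h
      have := le_abs_self M
      change 0 ≤ (L : ℝ) * _ at *
      linarith
    · rw [indicator_of_notMem h, norm_zero]
      positivity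
  refine ⟨⟨L + |M| / δ, by positivity⟩, LipschitzWith.of_dist_le_mul fun a b => ?_⟩
  change _ ≤ (L + |M| / δ) * dist a b
  by_cases hb : b ∈ cthickening δ K
  · by_cases ha : a ∈ cthickening δ K
    · rw [eq a ha, eq b hb]
      refine (hL.dist_le_mul a ha b hb).trans (mul_le_mul_of_nonneg_right ?_ dist_nonneg)
      have : 0 ≤ |M| / δ := by positivity
      linarith
    · rw [dist_comm, dist_comm a b]
      exact far b a ha
  · exact far a b hb

/-- The null Lagrangian for locally Lipschitz maps. -/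
theorem nl {C f : V → V} {O K : Set V} (hO : IsOpen O) (hK : IsCompact K) (KO : K ⊆ O)
    (lC : LocallyLipschitzOn O C) (lf : LocallyLipschitzOn O f) (hz : ∀ a ∈ O, a ∉ K → f a = 0) :
    IntegrableOn (dv C f) O ∧ ∫ a in O, dv C f a = 0 := by
  obtain ⟨K', hK', s1, s2⟩ := exists_compact_between hK hO KO
  obtain ⟨L, hL⟩ := (lC.mono s2).exists_lipschitzOnWith_of_compact hK'
  obtain ⟨C', l1, e1⟩ := hL.extend_finite_dimension
  obtain ⟨L', l2⟩ := lip_ind hO hK KO lf hz
  obtain ⟨i1, i2⟩ := nl0 l1 l2 hK fun a ha => indicator_of_notMem ha f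
  have eq : EqOn (dv C' (K.indicator f)) (dv C f) K := fun a ha => by
    have a1 : C' =ᶠ[𝓝 a] C := by
      filter_upwards [mem_interior_iff_mem_nhds.1 (s1 ha)] with b hb
      exact (e1 hb).symm
    have a2 : K.indicator f =ᶠ[𝓝 a] f := by
      filter_upwards [hO.mem_nhds (KO ha)] with b hb
      by_cases h : b ∈ K
      · exact indicator_of_mem h f
      · rw [indicator_of_notMem h, hz b hb h]
    simp only [dv, a1.fderiv_eq, a2.fderiv_eq]
  have z : ∀ a ∈ O \ K, dv C f a = 0 := fun a ha => by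
    refine dv_zero ?_
    filter_upwards [hO.mem_nhds ha.1, hK.isClosed.isOpen_compl.mem_nhds ha.2] with b h1 h2
    exact hz b h1 h2
  refine ⟨(i1.congr_fun eq hK.measurableSet).of_forall_sdiff_eq_zero hO.measurableSet z, ?_⟩
  rw [setIntegral_eq_of_subset_of_forall_sdiff_eq_zero hO.measurableSet KO z,
    ← setIntegral_congr_fun hK.measurableSet eq, i2]

end Pool.Agent.MP_3ee8cb_gt.CZP
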